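import Mathlib

namespace Pool.Agent.Results.MP_d05d56_co.Triangle
open Set MeasureTheory Complex

/-- Removing the set `S` of cuts splits `C` into exactly three connected pieces (separated by
disjoint open sets), each of area `|C| / 3`. -/
def Cut3 (C S : Set ℂ) : Prop :=
  ∃ O : Fin 3 → Set ℂ, (∀ i, IsOpen (O i)) ∧ Pairwise (fun i j => Disjoint (O i) (O j)) ∧
    C \ S ⊆ ⋃ i, O i ∧ ∀ i, IsConnected ((C \ S) ∩ O i) ∧ volume ((C \ S) ∩ O i) = volume C / 3

def K (a k : ℝ) : Set ℂ := {z | z.re ≤ 10 ∧ -(k * (z.re - a)) ≤ z.im ∧ z.im ≤ k * (z.re - a)}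

lemma vol (s : Set ℂ) (hs : MeasurableSet s) (a k : ℝ) (ha : a ≤ 10) (hk : 0 ≤ k)
    (h : ∀ x, volume {y : ℝ | (⟨x, y⟩ : ℂ) ∈ s} =
      (Icc a 10).indicator (fun x => ENNReal.ofReal (2 * k * (x - a))) x) :
    volume s = ENNReal.ofReal (k * (10 - a) ^ 2) := by
  rw [← (volume_preserving_equiv_real_prod.symm _).measure_preimage_equiv, Measure.volume_eq_prod,
    Measure.prod_apply (measurableEquivRealProd.symm.measurable hs)]
  change ∫⁻ x, volume {y : ℝ | (⟨x, y⟩ : ℂ) ∈ s} = _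
  simp_rw [h]
  rw [lintegral_indicator measurableSet_Icc, ← ofReal_integral_eq_lintegral_ofReal
    (Continuous.integrableOn_Icc (by fun_prop)) ((ae_restrict_iff' measurableSet_Icc).2
      (.of_forall fun x hx => mul_nonneg (by positivity) (sub_nonneg.2 hx.1))),
    integral_Icc_eq_integral_Ioc, ← intervalIntegral.integral_of_le ha,
    intervalIntegral.integral_const_mul, intervalIntegral.integral_sub (by simp) (by simp)]
  congr 1; simp; ring

lemma closedK (a k : ℝ) : IsClosed (K a k) := by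
  simp only [K, setOf_and]
  refine .inter ?_ (.inter ?_ ?_) <;> exact isClosed_le (by fun_prop) (by fun_prop)

lemma volK (a k : ℝ) (ha : a ≤ 10) (hk : 0 < k) :
    volume (K a k) = ENNReal.ofReal (k * (10 - a) ^ 2) := by
  refine vol _ (closedK a k).measurableSet a k ha hk.le fun x => ?_
  by_cases h : x ≤ 10
  · rw [show {y : ℝ | (⟨x, y⟩ : ℂ) ∈ K a k} = Icc (-(k * (x - a))) (k * (x - a)) by
      ext; simp [K, h], Real.volume_Icc]
    by_cases h' : a ≤ x
    · rw [indicator_of_mem (show x ∈ Icc a 10 from ⟨h', h⟩)]; congr 1; ring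
    · rw [indicator_of_notMem (fun e => h' e.1), ENNReal.ofReal_eq_zero]; nlinarith
  · rw [indicator_of_notMem (fun e => h e.2)]; simp [K, h]

lemma cvx (p : ℝ → ℝ → Prop) (h : ∀ a b x y u v : ℝ, 0 ≤ a → 0 ≤ b → a + b = 1 → p x y → p u v →
    p (a * x + b * u) (a * y + b * v)) : Convex ℝ {z : ℂ | p z.re z.im} :=
  fun z hz w hw a b ha hb hab => by simpa using h a b _ _ _ _ ha hb hab hz hw

lemma seg (t : ℝ) (z : ℂ) : z ∈ segment ℝ (2 : ℂ) ⟨10, t⟩ ↔
    2 ≤ z.re ∧ z.re ≤ 10 ∧ z.im = t / 8 * (z.re - 2) := by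
  constructor
  · rintro ⟨a, b, ha, hb, hab, rfl⟩
    obtain rfl : a = 1 - b := by linarith
    simp; refine ⟨by linarith, by linarith, by ring⟩
  · rintro ⟨h1, h2, h3⟩
    refine ⟨(10 - z.re) / 8, (z.re - 2) / 8, by linarith, by linarith, by ring, ?_⟩
    apply Complex.ext <;> simp [h3] <;> ring

theorem result : ∃ (C : Set ℂ) (P : ℂ) (A : Fin 3 → ℂ), IsCompact C ∧ Convex ℝ C ∧
    P ∈ interior C ∧ (∀ i, A i ∈ frontier C) ∧ Cut3 C (⋃ i, segment ℝ P (A i)) ∧
    ∀ i, ∀ B ∈ C, ∀ B' ∈ C, Cut3 C (segment ℝ (A i) B ∪ segment ℝ (A i) B') →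
      dist (A i) B + dist (A i) B' ≤ ∑ j, dist P (A j) := by
  have hS : ∀ z : ℂ, z ∈ ⋃ i, segment ℝ (2 : ℂ) (![⟨10, 5⟩, ⟨10, 0⟩, ⟨10, -5⟩] i) ↔
      2 ≤ z.re ∧ z.re ≤ 10 ∧ (z.im = 5 / 8 * (z.re - 2) ∨ z.im = 0 ∨
        z.im = -5 / 8 * (z.re - 2)) := fun z => by
    simp only [mem_iUnion, Fin.exists_fin_succ, Matrix.cons_val_zero, Matrix.cons_val_succ, seg]
    simp; tauto
  have vC : volume (K 0 (3 / 5)) / 3 = ENNReal.ofReal 20 := by
    rw [volK _ _ (by norm_num) (by norm_num), show (3 : ENNReal) = ENNReal.ofReal 3 by simp,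
      ← ENNReal.ofReal_div_of_pos (by norm_num)]; norm_num
  have half : ∀ s : ℝ, s = 1 ∨ s = -1 → ∀ U : Set ℂ,
      U = {z : ℂ | z.re ≤ 10 ∧ 0 < s * z.im ∧ s * z.im < 5 / 8 * (z.re - 2)} →
      IsConnected U ∧ volume U = ENNReal.ofReal 20 := by
    rintro s hs _ rfl
    refine ⟨Convex.isConnected (cvx (fun x y => x ≤ 10 ∧ 0 < s * y ∧ s * y < 5 / 8 * (x - 2))
      fun a b x y u v ha hb hab h1 h2 => ?_) ⟨⟨10, s⟩, by rcases hs with rfl | rfl <;> norm_num⟩,
      (vol _ (by measurability) 2 (5 / 16) (by norm_num) (by norm_num) fun x => ?_).trans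
        (by norm_num)⟩
    · obtain rfl : b = 1 - a := by linarith
      rcases ha.eq_or_lt with rfl | ha
      · simpa using h2
      refine ⟨by nlinarith, by nlinarith, by nlinarith⟩
    · by_cases h : x ≤ 10
      · have : volume {y : ℝ | 0 < s * y ∧ s * y < 5 / 8 * (x - 2)} =
            ENNReal.ofReal (5 / 8 * (x - 2)) := by
          rcases hs with rfl | rfl
          · rw [show {y : ℝ | 0 < 1 * y ∧ 1 * y < 5 / 8 * (x - 2)} = Ioo 0 (5 / 8 * (x - 2)) by
              ext; simp]; simp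
          · rw [show {y : ℝ | 0 < -1 * y ∧ -1 * y < 5 / 8 * (x - 2)} = Ioo (-(5 / 8 * (x - 2))) 0 by
              ext; simp [neg_lt, and_comm]]; simp
        simp only [mem_setOf_eq, h, true_and, this]
        by_cases h' : 2 ≤ x
        · rw [indicator_of_mem (show x ∈ Icc 2 10 from ⟨h', h⟩)]; congr 1; ring
        · rw [indicator_of_notMem (fun e => h' e.1), ENNReal.ofReal_eq_zero]; linarith
      · rw [indicator_of_notMem (fun e => h e.2)]; simp [h]
  refine ⟨K 0 (3 / 5), 2, ![⟨10, 5⟩, ⟨10, 0⟩, ⟨10, -5⟩], ?_, ?_, ?_, fun i => ?_,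
    ⟨![{z | 0 < z.im ∧ z.im < 5 / 8 * (z.re - 2)}, {z | 0 < -z.im ∧ -z.im < 5 / 8 * (z.re - 2)},
      {z | 5 / 8 * (z.re - 2) < z.im ∨ 5 / 8 * (z.re - 2) < -z.im}], fun i => ?_, fun i j h => ?_,
      fun z ⟨⟨h1, h2, h3⟩, h4⟩ => ?_, fun i => ?_⟩, fun i B hB B' hB' _ => ?_⟩
  · refine Metric.isCompact_of_isClosed_isBounded (closedK _ _)
      ((Metric.isBounded_closedBall (x := 0) (r := 20)).subset fun z ⟨h1, h2, h3⟩ => ?_)
    refine mem_closedBall_zero_iff.2 ((norm_le_abs_re_add_abs_im z).trans ?_)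
    linarith [abs_le.2 (⟨by linarith, h1⟩ : -10 ≤ z.re ∧ z.re ≤ 10),
      abs_le.2 (⟨by linarith, by linarith⟩ : -10 ≤ z.im ∧ z.im ≤ 10)]
  · exact cvx (fun x y => x ≤ 10 ∧ -(3 / 5 * (x - 0)) ≤ y ∧ y ≤ 3 / 5 * (x - 0))
      fun a b x y u v ha hb hab h1 h2 => ⟨by nlinarith, by nlinarith, by nlinarith⟩
  · refine mem_interior.2 ⟨{z | z.re < 10 ∧ -(3 / 5 * (z.re - 0)) < z.im ∧
      z.im < 3 / 5 * (z.re - 0)}, fun z h => ⟨h.1.le, h.2.1.le, h.2.2.le⟩, ?_, by norm_num⟩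
    simp only [setOf_and]
    refine .inter ?_ (.inter ?_ ?_) <;> exact isOpen_lt (by fun_prop) (by fun_prop)
  · refine ⟨subset_closure (by fin_cases i <;> norm_num [K]), fun h => ?_⟩
    have := interior_mono (show K 0 (3 / 5) ⊆ {z | z.re ≤ 10} from fun z h => h.1) h
    rw [interior_setOf_re_le] at this
    fin_cases i <;> simp at this
  · fin_cases i <;> simp only [setOf_and, setOf_or, Fin.reduceFinMk, Matrix.cons_val] <;>
      [refine .inter ?_ ?_; refine .inter ?_ ?_; refine .union ?_ ?_] <;>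
      exact isOpen_lt (by fun_prop) (by fun_prop)
  · refine Set.disjoint_left.2 ?_
    fin_cases i <;> fin_cases j <;> simp at h ⊢ <;> grind
  · rw [hS] at h4
    simp only [mem_iUnion, Fin.exists_fin_succ, Matrix.cons_val_zero, Matrix.cons_val_succ,
      mem_setOf_eq]
    grind
  · rw [vC]
    fin_cases i
    · refine half 1 (.inl rfl) _ (Set.ext fun z => ?_)
      rw [mem_inter_iff, mem_diff, hS]; simp [K]; grind
    · refine half (-1) (.inr rfl) _ (Set.ext fun z => ?_)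
      rw [mem_inter_iff, mem_diff, hS]; simp [K]; grind
    · have c : ∀ s : ℝ, Convex ℝ (K 0 (3 / 5) ∩ {z | 5 / 8 * (z.re - 2) < s * z.im}) := fun s =>
        cvx (fun x y => (x ≤ 10 ∧ -(3 / 5 * (x - 0)) ≤ y ∧ y ≤ 3 / 5 * (x - 0)) ∧
          5 / 8 * (x - 2) < s * y) fun a b x y u v ha hb hab h1 h2 => by
        obtain rfl : b = 1 - a := by linarith
        rcases ha.eq_or_lt with rfl | ha
        · simpa using h2
        exact ⟨⟨by nlinarith [h1.1, h2.1], by nlinarith [h1.1, h2.1], by nlinarith [h1.1, h2.1]⟩,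
          by nlinarith [h1.2, h2.2]⟩
      constructor
      · convert ((c 1).isConnected ⟨0, by norm_num [K]⟩).union ⟨0, by norm_num [K]⟩
          ((c (-1)).isConnected ⟨0, by norm_num [K]⟩) using 1
        ext z
        rw [mem_inter_iff, mem_diff, hS]; simp [K]; grind
      · have : volume (K 0 (3 / 5) \ K 2 (5 / 8)) = ENNReal.ofReal 20 := by
          rw [measure_diff (fun z h => by simp [K] at h ⊢; grind)
            (closedK _ _).measurableSet.nullMeasurableSet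
            (by rw [volK _ _ (by norm_num) (by norm_num)]; simp),
            volK _ _ (by norm_num) (by norm_num), volK _ _ (by norm_num) (by norm_num),
            ← ENNReal.ofReal_sub _ (by norm_num)]; norm_num
        convert this using 2
        ext z
        rw [mem_inter_iff, mem_diff, hS]; simp [K]; grind
  · have u : ∀ B ∈ K 0 (3 / 5), dist (![(⟨10, 5⟩ : ℂ), ⟨10, 0⟩, ⟨10, -5⟩] i) B ≤ 12 :=
      fun B ⟨h1, h2, h3⟩ => by
      rw [dist_eq_re_im]
      refine Real.sqrt_le_iff.2 ⟨by norm_num, ?_⟩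
      fin_cases i <;> simp <;> nlinarith
    have l : ∀ j, 8 ≤ dist 2 (![(⟨10, 5⟩ : ℂ), ⟨10, 0⟩, ⟨10, -5⟩] j) := fun j => by
      rw [dist_eq_re_im]
      refine Real.le_sqrt_of_sq_le ?_
      fin_cases j <;> norm_num
    rw [Fin.sum_univ_three]
    linarith [u B hB, u B' hB', l 0, l 1, l 2]

end Pool.Agent.Results.MP_d05d56_co.Triangle
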